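import Mathlib
import Pool.Agent.Lib.H13F.Key

/-!
# MP_aa1569_an: a restricted tracial Rokhlin action is a tracial Rokhlin action
-/

set_option autoImplicit false
open Filter Topology

namespace Pool.Agent.Results.MP_aa1569_an.RestrictedIsFull

universe u v

/-- The elements of the form `star b * b`, `b ∈ B` (the positive elements of a C*-subalgebra `B`). -/
def Pos {A : Type u} [CStarAlgebra A] (B : Set A) : Set A := {x | ∃ b ∈ B, x = star b * b}

/-- The fixed point algebra of an action. -/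
def Fixed {A : Type u} [CStarAlgebra A] {G : Type v} [Group G] (α : G →* (A ≃⋆ₐ[ℂ] A)) : Set A :=
  {a | ∀ g : G, α g a = a}

/-- Cuntz subequivalence of `a` to `b` in `B`: `v n * b * star (v n) → a` for some `v n ∈ B`. -/
def Cuntz {A : Type u} [CStarAlgebra A] (B : Set A) (a b : A) : Prop :=
  ∃ v : ℕ → A, (∀ n, v n ∈ B) ∧ Tendsto (fun n => v n * b * star (v n)) atTop (𝓝 a)

/-- Complete positivity of a linear map `φ : C(G) → A`: all matrices `(φ (star (f i) * f j))` are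
positive. -/
def IsCP {A : Type u} [CStarAlgebra A] {G : Type v} [TopologicalSpace G]
    (φ : C(G, ℂ) →ₗ[ℂ] A) : Prop :=
  ∀ (n : ℕ) (f : Fin n → C(G, ℂ)) (a : Fin n → A),
    (∑ i, ∑ j, star (a i) * φ (star (f i) * f j) * a j) ∈ Pos (Set.univ : Set A)

/-- Left translation on `C(G)`: `(Lt g f) h = f (g⁻¹ * h)`. -/
noncomputable def Lt {G : Type v} [Group G] [TopologicalSpace G] [IsTopologicalGroup G] (g : G) (f : C(G, ℂ)) :
    C(G, ℂ) :=
  f.comp ⟨fun h : G => g⁻¹ * h, continuous_const_mul g⁻¹⟩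

/-- `φ` is a unital completely positive map from `C(G)` to `pAp` which is `(F, S, ε)`-approximately
equivariant central multiplicative. -/
def IsRokhlinMap {A : Type u} [CStarAlgebra A] {G : Type v} [Group G] [TopologicalSpace G]
    [IsTopologicalGroup G] (α : G →* (A ≃⋆ₐ[ℂ] A)) (F : Finset A) (S : Finset C(G, ℂ)) (ε : ℝ)
    (p : A) (φ : C(G, ℂ) →ₗ[ℂ] A) : Prop :=
  IsCP φ ∧ φ 1 = p ∧ (∀ f, p * φ f * p = φ f) ∧
  (∀ f ∈ S, ∀ f' ∈ S, ‖φ (f * f') - φ f * φ f'‖ < ε) ∧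
  (∀ f ∈ S, ∀ a ∈ F, ‖φ f * a - a * φ f‖ < ε) ∧
  (∀ f ∈ S, ∃ δ < ε, ∀ g : G, ‖φ (Lt g f) - α g (φ f)‖ ≤ δ)

/-- Conditions 1 to 4 of the problem for `p` and `φ`. -/
def Restricted {A : Type u} [CStarAlgebra A] {G : Type v} [Group G] [TopologicalSpace G]
    [IsTopologicalGroup G] (α : G →* (A ≃⋆ₐ[ℂ] A)) (F : Finset A) (S : Finset C(G, ℂ)) (ε : ℝ)
    (x y p : A) (φ : C(G, ℂ) →ₗ[ℂ] A) : Prop :=
  IsSelfAdjoint p ∧ IsIdempotentElem p ∧ p ∈ Fixed α ∧ IsRokhlinMap α F S ε p φ ∧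
  Cuntz Set.univ (1 - p) x ∧ Cuntz (Fixed α) (1 - p) y ∧ Cuntz (Fixed α) (1 - p) p

/-- The restricted tracial Rokhlin property with comparison. -/
def RTRPC {A : Type u} [CStarAlgebra A] {G : Type v} [Group G] [TopologicalSpace G]
    [IsTopologicalGroup G] (α : G →* (A ≃⋆ₐ[ℂ] A)) : Prop :=
  ∀ (F : Finset A) (S : Finset C(G, ℂ)) (ε : ℝ), 0 < ε → ∀ x ∈ Pos (Set.univ : Set A), x ≠ 0 →
    ∀ y ∈ Pos (Fixed α), y ≠ 0 → ∃ (p : A) (φ : C(G, ℂ) →ₗ[ℂ] A), Restricted α F S ε x y p φ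

/-- The tracial Rokhlin property with comparison: the same with condition 5. -/
def TRPC {A : Type u} [CStarAlgebra A] {G : Type v} [Group G] [TopologicalSpace G]
    [IsTopologicalGroup G] (α : G →* (A ≃⋆ₐ[ℂ] A)) : Prop :=
  ∀ (F : Finset A) (S : Finset C(G, ℂ)) (ε : ℝ), 0 < ε → ∀ x ∈ Pos (Set.univ : Set A), x ≠ 0 →
    ∀ y ∈ Pos (Fixed α), y ≠ 0 → ∃ (p : A) (φ : C(G, ℂ) →ₗ[ℂ] A), Restricted α F S ε x y p φ ∧
      (‖x‖ = 1 → 1 - ε < ‖p * x * p‖)

/-- The strong form: `‖p * z * p‖ > ‖z‖ - ε` for all `z` in a given finite set. -/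
def StrongTRPC {A : Type u} [CStarAlgebra A] {G : Type v} [Group G] [TopologicalSpace G]
    [IsTopologicalGroup G] (α : G →* (A ≃⋆ₐ[ℂ] A)) : Prop :=
  ∀ (F Z : Finset A) (S : Finset C(G, ℂ)) (ε : ℝ), 0 < ε → ∀ x ∈ Pos (Set.univ : Set A), x ≠ 0 →
    ∀ y ∈ Pos (Fixed α), y ≠ 0 → ∃ (p : A) (φ : C(G, ℂ) →ₗ[ℂ] A), Restricted α F S ε x y p φ ∧
      ∀ z ∈ Z, ‖z‖ - ε < ‖p * z * p‖

/-- For a projection almost commuting with enough elements, `‖p z p‖` is almost `‖z‖`. -/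
theorem key_all {A : Type u} [CStarAlgebra A] [IsSimpleRing A] (z : A) {ε : ℝ} (hε : 0 < ε) :
    ∃ (F : Finset A) (δ : ℝ), 0 < δ ∧ ∀ p : A, IsSelfAdjoint p → IsIdempotentElem p →
      (∀ a ∈ F, ‖p * a - a * p‖ < δ) → p ≠ 0 → ‖z‖ - ε < ‖p * z * p‖ := by
  classical
  by_cases hz : z = 0
  · subst hz
    exact ⟨∅, 1, one_pos, fun p _ _ _ _ => by simpa using hε⟩
  have hzn : 0 < ‖z‖ := norm_pos_iff.mpr hz
  -- the normalised positive element
  set r : ℝ := ‖z‖⁻¹ with hr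
  set w : A := (r : ℂ) • z with hw
  have hwn : ‖w‖ = 1 := by
    rw [hw, norm_smul, hr]
    simp [hzn.ne']
  set x : A := star w * w with hx
  have hxn : ‖x‖ = 1 := by
    rw [hx, CStarRing.norm_star_mul_self, hwn, one_mul]
  obtain ⟨ε', hε', hεε', hε'1⟩ : ∃ ε' : ℝ, 0 < ε' ∧ ε' * ‖z‖ ≤ ε / 2 ∧ ε' < 1 := by
    refine ⟨min (ε / (2 * ‖z‖)) (1/2), lt_min (by positivity) (by norm_num), ?_,
      (min_le_right _ _).trans_lt (by norm_num)⟩
    calc min (ε / (2 * ‖z‖)) (1/2) * ‖z‖ ≤ ε / (2 * ‖z‖) * ‖z‖ := by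
          gcongr
          exact min_le_left _ _
      _ = ε / 2 := by field_simp
  obtain ⟨F, δ, hδ, h⟩ := H13F.key (A := A) (x := x) ⟨w, rfl⟩ hxn hε'
  refine ⟨insert w F, min δ (ε' / 2), lt_min hδ (by positivity), fun p hp1 hp2 hp3 hp0 => ?_⟩
  have hpn := H13F.norm_proj_le hp1 hp2
  have h1 := h p hp1 hp2 (fun a ha => (hp3 a (Finset.mem_insert_of_mem ha)).trans_le
    (min_le_left _ _)) hp0
  have h2 := (hp3 w (Finset.mem_insert_self _ _)).trans_le (min_le_right _ _)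
  have hwp : 1 - ε' < ‖w * p‖ * ‖w * p‖ := by
    have e : p * x * p = star (w * p) * (w * p) := by
      rw [hx, star_mul, hp1.star_eq]
      noncomm_ring
    rwa [e, CStarRing.norm_star_mul_self] at h1
  have hwp1 : 1 - ε' < ‖w * p‖ := by
    have h3 : ‖w * p‖ ≤ 1 := by
      calc ‖w * p‖ ≤ ‖w‖ * ‖p‖ := norm_mul_le _ _
        _ ≤ 1 * 1 := by gcongr; exact hwn.le
        _ = 1 := one_mul _
    nlinarith [norm_nonneg (w * p)]
  have hpwp : 1 - ε' - ε' / 2 < ‖p * w * p‖ := by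
    have e : w * p = p * w * p - (p * w - w * p) * p := by
      have : p * w * p - (p * w - w * p) * p = w * (p * p) := by noncomm_ring
      rw [this, hp2.eq]
    have h3 : ‖w * p‖ ≤ ‖p * w * p‖ + ‖p * w - w * p‖ := by
      calc ‖w * p‖ = ‖p * w * p - (p * w - w * p) * p‖ := by rw [← e]
        _ ≤ ‖p * w * p‖ + ‖(p * w - w * p) * p‖ := norm_sub_le _ _
        _ ≤ ‖p * w * p‖ + ‖p * w - w * p‖ * ‖p‖ := by gcongr; exact norm_mul_le _ _
        _ ≤ ‖p * w * p‖ + ‖p * w - w * p‖ * 1 := by gcongr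
        _ = _ := by rw [mul_one]
    linarith
  have hzw : z = (‖z‖ : ℂ) • w := by
    rw [hw, smul_smul, hr]
    have : ((‖z‖ : ℂ) * ((‖z‖⁻¹ : ℝ) : ℂ)) = 1 := by
      rw [← Complex.ofReal_mul, mul_inv_cancel₀ hzn.ne', Complex.ofReal_one]
    rw [this, one_smul]
  have hpzp : ‖p * z * p‖ = ‖z‖ * ‖p * w * p‖ := by
    have : p * z * p = (‖z‖ : ℂ) • (p * w * p) := by
      conv_lhs => rw [hzw]
      rw [mul_smul_comm, smul_mul_assoc]
    rw [this, norm_smul]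
    simp
  rw [hpzp]
  have h5 : ‖z‖ * (1 - ε' - ε' / 2) < ‖z‖ * ‖p * w * p‖ := by gcongr
  nlinarith

/-- For every simple unital C*-algebra `A` (no separability) and every action `α` of a compact group
by automorphisms, `α` is rTRPC iff it is TRPC iff it has the strong form. -/
theorem result (A : Type u) [CStarAlgebra A] [IsSimpleRing A] (G : Type v) [Group G]
    [TopologicalSpace G] [IsTopologicalGroup G] [CompactSpace G] [T2Space G]
    (α : G →* (A ≃⋆ₐ[ℂ] A)) : [RTRPC α, TRPC α, StrongTRPC α].TFAE := by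
  classical
  have strong : RTRPC α → StrongTRPC α := by
    intro hr F Z S ε hε x hx hx0 y hy hy0
    choose F' δ' hδ' hkey using fun z : A => key_all (A := A) z hε
    obtain ⟨δ, hδ, hδle⟩ : ∃ δ : ℝ, 0 < δ ∧ ∀ z ∈ Z, δ ≤ δ' z := by
      by_cases hZ : Z.Nonempty
      · refine ⟨Z.inf' hZ δ', ?_, fun z hz => Finset.inf'_le _ hz⟩
        rw [Finset.lt_inf'_iff]
        exact fun z _ => hδ' z
      · exact ⟨1, one_pos, fun z hz => absurd ⟨z, hz⟩ hZ⟩
    obtain ⟨p, φ, h1, h2, h3, ⟨h4, h5, h6, h7, h8, h9⟩, h10, h11, h12⟩ :=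
      hr (F ∪ Z.biUnion F') (insert 1 S) (min ε δ) (lt_min hε hδ) x hx hx0 y hy hy0
    have hp0 : p ≠ 0 := by
      rintro rfl
      obtain ⟨v, _, hv⟩ := h12
      simp only [mul_zero, zero_mul, sub_zero] at hv
      exact one_ne_zero (tendsto_nhds_unique hv tendsto_const_nhds)
    refine ⟨p, φ, ⟨h1, h2, h3, ⟨h4, h5, h6, ?_, ?_, ?_⟩, h10, h11, h12⟩, ?_⟩
    · intro f hf f' hf'
      exact (h7 f (Finset.mem_insert_of_mem hf) f' (Finset.mem_insert_of_mem hf')).trans_le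
        (min_le_left _ _)
    · intro f hf a ha
      exact (h8 f (Finset.mem_insert_of_mem hf) a (Finset.mem_union_left _ ha)).trans_le
        (min_le_left _ _)
    · intro f hf
      obtain ⟨d, hd, h⟩ := h9 f (Finset.mem_insert_of_mem hf)
      exact ⟨d, hd.trans_le (min_le_left _ _), h⟩
    · intro z hz
      refine hkey z p h1 h2 (fun a ha => ?_) hp0
      have := h8 1 (Finset.mem_insert_self _ _) a
        (Finset.mem_union_right _ (Finset.mem_biUnion.mpr ⟨z, hz, ha⟩))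
      rw [h5] at this
      exact this.trans_le ((min_le_right _ _).trans (hδle z hz))
  tfae_have 1 → 3 := strong
  tfae_have 3 → 2 := by
    intro hs F S ε hε x hx hx0 y hy hy0
    obtain ⟨p, φ, h, hz⟩ := hs F {x} S ε hε x hx hx0 y hy hy0
    exact ⟨p, φ, h, fun h1 => by simpa [h1] using hz x (Finset.mem_singleton_self x)⟩
  tfae_have 2 → 1 := by
    intro ht F S ε hε x hx hx0 y hy hy0
    obtain ⟨p, φ, h, _⟩ := ht F S ε hε x hx hx0 y hy hy0
    exact ⟨p, φ, h⟩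
  tfae_finish

end Pool.Agent.Results.MP_aa1569_an.RestrictedIsFull
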